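import Pool.Agent.VM5.Stmts

/-!
# Weyl's exponent for quintic sums, module BL3: the bound of part III
-/

set_option autoImplicit false

namespace Pool.Agent.VM5.H76

open Pool.Agent.Helper69_Weyl (ee)
open Pool.Agent.VM (Nr)

/-- the arithmetic of the bound -/
theorem core (C1 C2 C3 n k dd s G W A B ε : ℝ) (hε : 0 < ε) (hC1 : 0 < C1) (hC2 : 0 < C2)
    (hC3 : 0 < C3) (hn : 1 ≤ n) (hk : 1 ≤ k) (hkn : k ≤ n) (hd1 : 1 ≤ dd) (hdn : dd ≤ n)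
    (hsd : dd ^ (1 - ε) ≤ s) (hG : 1 ≤ G) (_hW : 0 ≤ W) (hA : 0 ≤ A) (hB : 0 ≤ B)
    (h1 : s * k * W ^ 4 ≤ 10 * s * k * n ^ 3 + 16 * n * (A + B))
    (h2 : A ^ 12 ≤ C1 * k ^ (12 + ε) * (3 * n ^ 3 * s) ^ 10 * (C2 * n ^ (3 + ε) * dd * G))
    (h3 : B ^ 12 ≤ C1 * k ^ (12 + ε) * (3 * n ^ 3 * s / dd) ^ 10 *
      (C3 * n ^ (3 + ε) * dd ^ 4 * G)) :
    W ^ 48 ≤ (2 ^ 11 * 10 ^ 12 + 2 ^ 22 * 16 ^ 12 * 3 ^ 10 * C1 * (C2 + C3)) *
      n ^ (45 + 8 * ε) * G / dd := by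
  have hn0 : 0 < n := by linarith
  have hk0 : 0 < k := by linarith
  have hd0 : 0 < dd := by linarith
  have hG0 : 0 < G := by linarith
  have hs0 : 0 < s := lt_of_lt_of_le (Real.rpow_pos_of_pos hd0 _) hsd
  have hkε : 0 < k ^ ε := Real.rpow_pos_of_pos hk0 _
  have hnε : 0 < n ^ ε := Real.rpow_pos_of_pos hn0 _
  have hdε : 0 < dd ^ ε := Real.rpow_pos_of_pos hd0 _
  have hk12 : k ^ (12 + ε) = k ^ 12 * k ^ ε := by
    rw [Real.rpow_add hk0]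
    norm_num
  have hn3 : n ^ (3 + ε) = n ^ 3 * n ^ ε := by
    rw [Real.rpow_add hn0]
    norm_num
  have hn45 : n ^ (45 + 8 * ε) = n ^ 45 * (n ^ ε) ^ 8 := by
    rw [Real.rpow_add hn0, mul_comm 8 ε, Real.rpow_mul hn0.le]
    norm_num
  have hnε1 : 1 ≤ n ^ ε := Real.one_le_rpow hn hε.le
  have hknε : k ^ ε ≤ n ^ ε := Real.rpow_le_rpow hk0.le hkn hε.le
  have hdnε : dd ^ ε ≤ n ^ ε := Real.rpow_le_rpow hd0.le hdn hε.le
  -- the size of S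
  have hds : dd ≤ s * dd ^ ε := by
    calc dd = dd ^ (1 - ε) * dd ^ ε := by
          rw [← Real.rpow_add hd0]
          norm_num
      _ ≤ s * dd ^ ε := mul_le_mul_of_nonneg_right hsd hdε.le
  obtain ⟨ke, hke⟩ : ∃ x, x = k ^ ε := ⟨_, rfl⟩
  obtain ⟨ne, hne⟩ : ∃ x, x = n ^ ε := ⟨_, rfl⟩
  obtain ⟨de, hde⟩ : ∃ x, x = dd ^ ε := ⟨_, rfl⟩
  rw [hk12, hn3] at h2 h3
  rw [hn45]
  rw [← hke] at h2 h3 hkε hknε
  rw [← hne] at h2 h3 hnε hnε1 hknε hdnε ⊢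
  rw [← hde] at hds hdnε hdε
  -- the common majorant
  obtain ⟨M, hM⟩ : ∃ x, x = k ^ 12 * ke * (n ^ 3 * s) ^ 10 * (n ^ 3 * ne * dd * G) := ⟨_, rfl⟩
  have hM0 : 0 < M := by rw [hM]; positivity
  have hA2 : A ^ 12 ≤ 3 ^ 10 * C1 * C2 * M := by
    refine h2.trans (le_of_eq ?_)
    rw [hM]
    ring
  have hB2 : B ^ 12 ≤ 3 ^ 10 * C1 * C3 * M := by
    refine h3.trans ?_
    have e1 : C1 * (k ^ 12 * ke) * (3 * n ^ 3 * s / dd) ^ 10 * (C3 * (n ^ 3 * ne) * dd ^ 4 * G) =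
        3 ^ 10 * C1 * C3 * (k ^ 12 * ke * (n ^ 3 * s) ^ 10 * (n ^ 3 * ne * G)) *
          (dd ^ 4 / dd ^ 10) := by
      field_simp
    have e2 : dd ^ 4 / dd ^ 10 ≤ dd := by
      rw [div_le_iff₀ (by positivity)]
      calc dd ^ 4 ≤ dd ^ 11 := pow_le_pow_right₀ hd1 (by norm_num)
        _ = dd * dd ^ 10 := by ring
    rw [e1]
    calc 3 ^ 10 * C1 * C3 * (k ^ 12 * ke * (n ^ 3 * s) ^ 10 * (n ^ 3 * ne * G)) *
          (dd ^ 4 / dd ^ 10)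
        ≤ 3 ^ 10 * C1 * C3 * (k ^ 12 * ke * (n ^ 3 * s) ^ 10 * (n ^ 3 * ne * G)) * dd :=
          mul_le_mul_of_nonneg_left e2 (by positivity)
      _ = 3 ^ 10 * C1 * C3 * M := by
          rw [hM]
          ring
  have hAB : (A + B) ^ 12 ≤ 2 ^ 11 * (3 ^ 10 * C1 * (C2 + C3) * M) := by
    have e1 := add_pow_le hA hB 12
    calc (A + B) ^ 12 ≤ 2 ^ (12 - 1) * (A ^ 12 + B ^ 12) := e1
      _ = 2 ^ 11 * (A ^ 12 + B ^ 12) := by norm_num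
      _ ≤ 2 ^ 11 * (3 ^ 10 * C1 * (C2 + C3) * M) := by
        refine mul_le_mul_of_nonneg_left ?_ (by norm_num)
        calc A ^ 12 + B ^ 12 ≤ 3 ^ 10 * C1 * C2 * M + 3 ^ 10 * C1 * C3 * M :=
              add_le_add hA2 hB2
          _ = 3 ^ 10 * C1 * (C2 + C3) * M := by ring
  have hW48 : (s * k) ^ 12 * W ^ 48 ≤ 2 ^ 11 * (10 ^ 12 * (s * k) ^ 12 * n ^ 36 +
      16 ^ 12 * n ^ 12 * (2 ^ 11 * (3 ^ 10 * C1 * (C2 + C3) * M))) := by
    calc (s * k) ^ 12 * W ^ 48 = (s * k * W ^ 4) ^ 12 := by ring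
      _ ≤ (10 * s * k * n ^ 3 + 16 * n * (A + B)) ^ 12 :=
        pow_le_pow_left₀ (by positivity) h1 12
      _ ≤ 2 ^ (12 - 1) * ((10 * s * k * n ^ 3) ^ 12 + (16 * n * (A + B)) ^ 12) :=
        add_pow_le (by positivity) (by positivity) 12
      _ = 2 ^ 11 * (10 ^ 12 * (s * k) ^ 12 * n ^ 36 + 16 ^ 12 * n ^ 12 * (A + B) ^ 12) := by
        ring
      _ ≤ _ := by
        refine mul_le_mul_of_nonneg_left ?_ (by norm_num)
        refine add_le_add le_rfl ?_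
        exact mul_le_mul_of_nonneg_left hAB (by positivity)
  -- the two final estimates
  have hF1 : n ^ 36 ≤ n ^ 45 * ne ^ 8 * G / dd := by
    rw [le_div_iff₀ hd0]
    have e1 : (1 : ℝ) ≤ ne ^ 8 := one_le_pow₀ hnε1
    calc n ^ 36 * dd ≤ n ^ 36 * n := mul_le_mul_of_nonneg_left hdn (by positivity)
      _ = n ^ 37 := by ring
      _ ≤ n ^ 45 := pow_le_pow_right₀ hn (by norm_num)
      _ = n ^ 45 * 1 * 1 := by ring
      _ ≤ n ^ 45 * ne ^ 8 * G := by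
        refine mul_le_mul (mul_le_mul_of_nonneg_left e1 (by positivity)) hG (by norm_num)
          (by positivity)
  have hF2 : n ^ 12 * M ≤ (s * k) ^ 12 * (n ^ 45 * ne ^ 8 * G / dd) := by
    have e0 : n ^ 12 * M = (s ^ 10 * k ^ 12 * n ^ 45 * G) * (ke * ne * dd) := by
      rw [hM]
      ring
    have e1 : (s * k) ^ 12 * (n ^ 45 * ne ^ 8 * G / dd) =
        (s ^ 10 * k ^ 12 * n ^ 45 * G) * (s ^ 2 * ne ^ 8 / dd) := by
      ring
    rw [e0, e1]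
    refine mul_le_mul_of_nonneg_left ?_ (by positivity)
    rw [le_div_iff₀ hd0]
    have e2 : dd ^ 2 ≤ s ^ 2 * ne ^ 2 := by
      have e3 : dd ≤ s * ne := hds.trans (mul_le_mul_of_nonneg_left hdnε hs0.le)
      calc dd ^ 2 ≤ (s * ne) ^ 2 := pow_le_pow_left₀ hd0.le e3 2
        _ = s ^ 2 * ne ^ 2 := by ring
    have e4 : ke * ne ≤ ne * ne := mul_le_mul_of_nonneg_right hknε hnε.le
    calc ke * ne * dd * dd = (ke * ne) * dd ^ 2 := by ring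
      _ ≤ (ne * ne) * (s ^ 2 * ne ^ 2) := mul_le_mul e4 e2 (by positivity) (by positivity)
      _ = s ^ 2 * ne ^ 4 := by ring
      _ ≤ s ^ 2 * ne ^ 8 :=
        mul_le_mul_of_nonneg_left (pow_le_pow_right₀ hnε1 (by norm_num)) (by positivity)
  have hsk : 0 < (s * k) ^ 12 := by positivity
  obtain ⟨T, hT⟩ : ∃ x, x = n ^ 45 * ne ^ 8 * G / dd := ⟨_, rfl⟩
  rw [← hT] at hF1 hF2
  have hgoal : (2 ^ 11 * 10 ^ 12 + 2 ^ 22 * 16 ^ 12 * 3 ^ 10 * C1 * (C2 + C3)) *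
      (n ^ 45 * ne ^ 8) * G / dd =
      (2 ^ 11 * 10 ^ 12 + 2 ^ 22 * 16 ^ 12 * 3 ^ 10 * C1 * (C2 + C3)) * T := by
    rw [hT]
    ring
  rw [hgoal]
  refine le_of_mul_le_mul_left ?_ hsk
  calc (s * k) ^ 12 * W ^ 48
      ≤ 2 ^ 11 * (10 ^ 12 * (s * k) ^ 12 * n ^ 36 +
        16 ^ 12 * n ^ 12 * (2 ^ 11 * (3 ^ 10 * C1 * (C2 + C3) * M))) := hW48
    _ = (2 ^ 11 * 10 ^ 12 * (s * k) ^ 12) * n ^ 36 +
        (2 ^ 22 * 16 ^ 12 * 3 ^ 10 * C1 * (C2 + C3)) * (n ^ 12 * M) := by ring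
    _ ≤ (2 ^ 11 * 10 ^ 12 * (s * k) ^ 12) * T +
        (2 ^ 22 * 16 ^ 12 * 3 ^ 10 * C1 * (C2 + C3)) * ((s * k) ^ 12 * T) := by
      refine add_le_add (mul_le_mul_of_nonneg_left hF1 (by positivity))
        (mul_le_mul_of_nonneg_left hF2 (by positivity))
    _ = (s * k) ^ 12 *
        ((2 ^ 11 * 10 ^ 12 + 2 ^ 22 * 16 ^ 12 * 3 ^ 10 * C1 * (C2 + C3)) * T) := by ring

/-- the number of points -/
theorem card_P3 (N : ℕ) (S : Finset ℕ) (hN : 1 ≤ N) :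
    ((P3 N S).card : ℝ) ≤ 3 * (N : ℝ) ^ 3 * (S.card : ℝ) := by
  unfold P3
  rw [Finset.card_product, Finset.card_product, Finset.card_product, Nat.card_Icc,
    Int.card_Icc]
  have h1 : (((N : ℤ) + 1 - (-(N : ℤ))).toNat : ℝ) = 2 * N + 1 := by
    have h2 : ((N : ℤ) + 1 - (-(N : ℤ))).toNat = 2 * N + 1 := by omega
    rw [h2]
    push_cast
    ring
  have hN1 : (1 : ℝ) ≤ (N : ℝ) := by exact_mod_cast hN
  push_cast [Nat.add_sub_cancel]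
  rw [h1]
  have hs : (0 : ℝ) ≤ (S.card : ℝ) := Nat.cast_nonneg _
  have h3 : (2 * (N : ℝ) + 1) ≤ 3 * N := by linarith
  calc (N : ℝ) * ((N : ℝ) * ((S.card : ℝ) * (2 * N + 1)))
      = ((N : ℝ) ^ 2 * (S.card : ℝ)) * (2 * N + 1) := by ring
    _ ≤ ((N : ℝ) ^ 2 * (S.card : ℝ)) * (3 * N) :=
      mul_le_mul_of_nonneg_left h3 (by positivity)
    _ = 3 * (N : ℝ) ^ 3 * (S.card : ℝ) := by ring

/-- the integers in an interval in a residue class modulo an odd number -/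
theorem card_cls (N d : ℕ) (c : ℤ) (hd : 2 < d) (hp : d.Prime) :
    ((Finset.Icc (-(N : ℤ)) (N : ℤ)).filter (fun r => (d : ℤ) ∣ 2 * r + c)).card ≤
      2 * N / d + 1 := by
  have hd0 : 0 < d := by omega
  have hodd : ∀ a b : ℤ, (d : ℤ) ∣ 2 * a + c → (d : ℤ) ∣ 2 * b + c → (d : ℤ) ∣ a - b := by
    intro a b ha hb
    have h1 : (d : ℤ) ∣ 2 * (a - b) := by
      have h2 := dvd_sub ha hb
      have h3 : 2 * a + c - (2 * b + c) = 2 * (a - b) := by ring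
      rwa [h3] at h2
    have hcop : IsCoprime (d : ℤ) 2 := by
      rw [Int.isCoprime_iff_gcd_eq_one]
      have h4 : Nat.Coprime d 2 := by
        rw [Nat.Prime.coprime_iff_not_dvd hp]
        intro h5
        have := Nat.le_of_dvd (by norm_num) h5
        omega
      exact_mod_cast h4
    exact hcop.dvd_of_dvd_mul_left h1
  -- map r to (r + N) / d
  refine (Finset.card_le_card_of_injOn (t := Finset.range (2 * N / d + 1))
    (fun r : ℤ => ((r + (N : ℤ)) / (d : ℤ)).toNat) ?_ ?_).trans (by rw [Finset.card_range])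
  · intro r hr
    simp only [Finset.coe_filter, Finset.mem_Icc, Set.mem_ofPred_eq] at hr
    simp only [Finset.coe_range, Set.mem_Iio]
    obtain ⟨⟨h1, h2⟩, -⟩ := hr
    have h3 : (r + N) / (d : ℤ) ≤ (2 * N : ℤ) / d := Int.ediv_le_ediv (by omega) (by omega)
    have h4 : ((2 * N : ℤ) / d) = ((2 * N / d : ℕ) : ℤ) := by push_cast; rfl
    rw [h4] at h3
    generalize (2 * N / d : ℕ) = m at h3 ⊢
    omega
  · intro a ha b hb hab
    simp only [Finset.coe_filter, Finset.mem_Icc, Set.mem_ofPred_eq] at ha hb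
    have hdv := hodd a b ha.2 hb.2
    have h1 : 0 ≤ (a + N) / (d : ℤ) := Int.ediv_nonneg (by omega) (by omega)
    have h2 : 0 ≤ (b + N) / (d : ℤ) := Int.ediv_nonneg (by omega) (by omega)
    have h3 : (a + N) / (d : ℤ) = (b + N) / (d : ℤ) := by
      have h5 : ((a + N) / (d : ℤ)).toNat = ((b + N) / (d : ℤ)).toNat := hab
      omega
    have h4 : (a + N) % (d : ℤ) = (b + N) % (d : ℤ) := by
      have h6 : (d : ℤ) ∣ (a + N) - (b + N) := by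
        have h7 : (a + N) - (b + N) = a - b := by ring
        rwa [h7]
      exact Int.emod_eq_emod_iff_emod_sub_eq_zero.mpr (Int.emod_eq_zero_of_dvd h6)
    have h5 := Int.mul_ediv_add_emod (a + N) (d : ℤ)
    have h6 := Int.mul_ediv_add_emod (b + N) (d : ℤ)
    rw [h3, h4] at h5
    omega

/-- the number of bad points -/
theorem card_P3b (N D : ℕ) (S : Finset ℕ) (hN : 1 ≤ N) (hD : 10 < D) (hDN : D ≤ N)
    (hS : ∀ d ∈ S, D < d ∧ d ≤ 2 * D ∧ d.Prime) :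
    ((P3b N S).card : ℝ) ≤ 3 * (N : ℝ) ^ 3 * (S.card : ℝ) / (D : ℝ) := by
  classical
  have hD0 : (0 : ℝ) < (D : ℝ) := by
    have : 0 < D := by omega
    exact_mod_cast this
  have hfib : ∀ x ∈ Finset.Icc 1 N ×ˢ Finset.Icc 1 N ×ˢ S,
      (((Finset.Icc (-(N : ℤ)) (N : ℤ)).filter
        (fun r => (x.2.2 : ℤ) ∣ 2 * r + ((x.1 : ℤ) + (x.2.1 : ℤ)))).card : ℝ) ≤ 3 * N / D := by
    intro x hx
    simp only [Finset.mem_product] at hx
    obtain ⟨h1, h2, h3⟩ := hS x.2.2 hx.2.2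
    have h4 := card_cls N x.2.2 ((x.1 : ℤ) + (x.2.1 : ℤ)) (by omega) h3
    have h5 : ((2 * N / x.2.2 + 1 : ℕ) : ℝ) ≤ 3 * N / D := by
      have h6 : ((2 * N / x.2.2 : ℕ) : ℝ) ≤ 2 * N / D := by
        have h7 : ((2 * N / x.2.2 : ℕ) : ℝ) ≤ ((2 * N : ℕ) : ℝ) / (x.2.2 : ℝ) := Nat.cast_div_le
        refine h7.trans ?_
        push_cast
        refine div_le_div_of_nonneg_left (by positivity) hD0 ?_
        exact_mod_cast h1.le
      have h8 : (1 : ℝ) ≤ N / D := by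
        rw [le_div_iff₀ hD0, one_mul]
        exact_mod_cast hDN
      push_cast at h6 ⊢
      have h9 : 3 * (N : ℝ) / D = 2 * N / D + N / D := by ring
      rw [h9]
      linarith
    exact le_trans (by exact_mod_cast h4) h5
  have hle : (P3b N S).card ≤ ∑ x ∈ Finset.Icc 1 N ×ˢ Finset.Icc 1 N ×ˢ S,
      ((Finset.Icc (-(N : ℤ)) (N : ℤ)).filter
        (fun r => (x.2.2 : ℤ) ∣ 2 * r + ((x.1 : ℤ) + (x.2.1 : ℤ)))).card := by
    rw [← Finset.card_sigma]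
    refine Finset.card_le_card_of_injOn (fun p => ⟨(p.1, p.2.1, p.2.2.1), p.2.2.2⟩) ?_ ?_
    · intro p hp
      simp only [P3b, P3, Z3, Finset.coe_filter, Finset.mem_product, Set.mem_ofPred_eq] at hp
      obtain ⟨⟨h1, h2, h3, h4⟩, h5⟩ := hp
      simp only [Finset.coe_sigma, Set.mem_sigma_iff, Finset.mem_coe, Finset.mem_product,
        Finset.mem_filter]
      refine ⟨⟨h1, h2, h3⟩, h4, ?_⟩
      have h6 : 2 * p.2.2.2 + ((p.1 : ℤ) + (p.2.1 : ℤ)) =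
          2 * p.2.2.2 + (p.1 : ℤ) + (p.2.1 : ℤ) := by ring
      rw [h6]
      exact h5
    · intro p _ q _ hpq
      obtain ⟨a, b, c, e⟩ := p
      obtain ⟨a', b', c', e'⟩ := q
      simp only [Sigma.mk.injEq, Prod.mk.injEq, heq_eq_eq] at hpq
      obtain ⟨⟨h1, h2, h3⟩, h4⟩ := hpq
      subst h1 h2 h3 h4
      rfl
  calc ((P3b N S).card : ℝ)
      ≤ ((∑ x ∈ Finset.Icc 1 N ×ˢ Finset.Icc 1 N ×ˢ S,
      ((Finset.Icc (-(N : ℤ)) (N : ℤ)).filter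
        (fun r => (x.2.2 : ℤ) ∣ 2 * r + ((x.1 : ℤ) + (x.2.1 : ℤ)))).card : ℕ) : ℝ) := by
        exact_mod_cast hle
    _ = ∑ x ∈ Finset.Icc 1 N ×ˢ Finset.Icc 1 N ×ˢ S,
      (((Finset.Icc (-(N : ℤ)) (N : ℤ)).filter
        (fun r => (x.2.2 : ℤ) ∣ 2 * r + ((x.1 : ℤ) + (x.2.1 : ℤ)))).card : ℝ) := by
        push_cast
        rfl
    _ ≤ ∑ _x ∈ Finset.Icc 1 N ×ˢ Finset.Icc 1 N ×ˢ S, (3 * (N : ℝ) / D) :=
        Finset.sum_le_sum hfib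
    _ = 3 * (N : ℝ) ^ 3 * (S.card : ℝ) / (D : ℝ) := by
        rw [Finset.sum_const, Finset.card_product, Finset.card_product, Nat.card_Icc,
          nsmul_eq_mul]
        push_cast [Nat.add_sub_cancel]
        ring

theorem bl3 (lsg : LsgStmt 3) (av2 : Av2Stmt) (eg3 : Eg3Stmt) (eb3 : Eb3Stmt) : Bl3Stmt := by
  intro ε hε
  obtain ⟨C1, hC1, hl⟩ := lsg ε hε
  obtain ⟨C2, hC2, hg⟩ := eg3 ε hε
  obtain ⟨C3, hC3, hb⟩ := eb3 ε hε
  refine ⟨2 ^ 11 * 10 ^ 12 + 2 ^ 22 * 16 ^ 12 * 3 ^ 10 * C1 * (C2 + C3), by positivity, ?_⟩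
  intro N D K U G t ξ b S hpar hS
  classical
  obtain ⟨p1, p2, p3, p4, p5, p6, p7, p8, p9, p10, p11, p12, p13⟩ := id hpar
  have hD1 : 1 ≤ D := by omega
  have hK1 : 1 ≤ K := by omega
  have hDK : D * K ≤ N := by
    refine le_trans ?_ p1
    have : D * K ≤ 4 * (D * K) := by omega
    calc D * K ≤ 4 * (D * K) := this
      _ = 4 * D * K := by ring
  have hDN : D ≤ N := (Nat.le_mul_of_pos_right D hK1).trans hDK
  have hKN : K ≤ N := (Nat.le_mul_of_pos_left K hD1).trans hDK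
  have hN1 : 1 ≤ N := hD1.trans hDN
  obtain ⟨lo, hi, hlo, hhi, hav⟩ := av2 t ξ N K S hK1 (fun d hd => by
    obtain ⟨h1, h2, -⟩ := p13 d hd
    refine ⟨by omega, ?_⟩
    calc d * K ≤ 2 * D * K := Nat.mul_le_mul_right K h2
      _ ≤ 4 * D * K := by
        refine Nat.mul_le_mul_right K ?_
        omega
      _ ≤ N := p1)
  -- the embedding of the index set
  have hinj : Function.Injective
      (fun p : ℕ × ℕ × ℕ × ℤ => ((Nat.pair p.1 (Nat.pair p.2.1 p.2.2.1), p.2.2.2) : ℕ × ℤ)) := by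
    intro p q hpq
    obtain ⟨a, b, c, e⟩ := p
    obtain ⟨a', b', c', e'⟩ := q
    simp only [Prod.mk.injEq, Nat.pair_eq_pair] at hpq
    obtain ⟨⟨h1, h2, h3⟩, h4⟩ := hpq
    subst h1 h2 h3 h4
    rfl
  have htri : VM.tri 3 = 6 := by decide
  have hlG := hl (ℕ × ℕ × ℕ × ℤ) _ hinj K hK1 (P3g N S) (fun p j => t * (co3 j p : ℝ)) lo hi
    (fun p _ => hlo p) (fun p _ => hhi p)
  have hlB := hl (ℕ × ℕ × ℕ × ℤ) _ hinj K hK1 (P3b N S) (fun p j => t * (co3 j p : ℝ)) lo hi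
    (fun p _ => hlo p) (fun p _ => hhi p)
  rw [htri] at hlG hlB
  obtain ⟨A, hA⟩ : ∃ x, x = ∑ p ∈ P3g N S, ‖∑ m ∈ Finset.Icc (lo p) (hi p),
    ee (∑ j : Fin 3, t * (co3 j p : ℝ) * (m : ℝ) ^ ((j : ℕ) + 1))‖ := ⟨_, rfl⟩
  obtain ⟨B, hB⟩ : ∃ x, x = ∑ p ∈ P3b N S, ‖∑ m ∈ Finset.Icc (lo p) (hi p),
    ee (∑ j : Fin 3, t * (co3 j p : ℝ) * (m : ℝ) ^ ((j : ℕ) + 1))‖ := ⟨_, rfl⟩
  have hA0 : 0 ≤ A := by
    rw [hA]
    exact Finset.sum_nonneg fun p _ => norm_nonneg _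
  have hB0 : 0 ≤ B := by
    rw [hB]
    exact Finset.sum_nonneg fun p _ => norm_nonneg _
  have hsplit : ∑ p ∈ P3 N S, ‖∑ m ∈ Finset.Icc (lo p) (hi p),
      ee (∑ j : Fin 3, t * (co3 j p : ℝ) * (m : ℝ) ^ ((j : ℕ) + 1))‖ = A + B := by
    rw [hA, hB, add_comm]
    unfold P3g P3b
    exact (Finset.sum_filter_add_sum_filter_not _ _ _).symm
  rw [hsplit] at hav
  have hn1 : (1 : ℝ) ≤ (N : ℝ) := by exact_mod_cast hN1
  have hk1 : (1 : ℝ) ≤ (K : ℝ) := by exact_mod_cast hK1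
  have hd1 : (1 : ℝ) ≤ (D : ℝ) := by exact_mod_cast hD1
  have hG0 : (0 : ℝ) < G := by linarith
  have hEg := hg N D K U G t b S hpar
  have hEb := hb N D K U G t b S hpar
  have hPg : ((P3g N S).card : ℝ) ≤ 3 * (N : ℝ) ^ 3 * (S.card : ℝ) := by
    refine le_trans ?_ (card_P3 N S hN1)
    exact_mod_cast Finset.card_filter_le _ _
  have hPb := card_P3b N D S hN1 p3 hDN p13
  have hexp : (2 * ((6 : ℕ) : ℝ) + ε) = 12 + ε := by norm_num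
  have hkp : 0 ≤ C1 * (K : ℝ) ^ (12 + ε) := by positivity
  have hA12 : A ^ 12 ≤ C1 * (K : ℝ) ^ (12 + ε) * (3 * (N : ℝ) ^ 3 * (S.card : ℝ)) ^ 10 *
      (C2 * (N : ℝ) ^ (3 + ε) * (D : ℝ) * G) := by
    rw [hexp] at hlG
    rw [hA]
    refine hlG.trans ?_
    refine mul_le_mul (mul_le_mul_of_nonneg_left (pow_le_pow_left₀ (Nat.cast_nonneg _) hPg 10)
      hkp) hEg (Nat.cast_nonneg _) (by positivity)
  have hB12 : B ^ 12 ≤ C1 * (K : ℝ) ^ (12 + ε) *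
      (3 * (N : ℝ) ^ 3 * (S.card : ℝ) / (D : ℝ)) ^ 10 *
      (C3 * (N : ℝ) ^ (3 + ε) * (D : ℝ) ^ 4 * G) := by
    rw [hexp] at hlB
    rw [hB]
    refine hlB.trans ?_
    refine mul_le_mul (mul_le_mul_of_nonneg_left (pow_le_pow_left₀ (Nat.cast_nonneg _) hPb 10)
      hkp) hEb (Nat.cast_nonneg _) (by positivity)
  exact core C1 C2 C3 N K D S.card G ‖WS t ξ N‖ A B ε hε hC1 hC2 hC3 hn1 hk1
    (by exact_mod_cast hKN) hd1 (by exact_mod_cast hDN) hS p6 (norm_nonneg _) hA0 hB0 hav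
    hA12 hB12

end Pool.Agent.VM5.H76
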