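import Mathlib
import Pool.Agent.VM5.StmtsB
import Pool.Agent.Helper69_Weyl.Divisor

/-!
# GS2: the weighted sum of the greatest common divisors
-/

set_option autoImplicit false

namespace Pool.Agent.VM5.H76

open Pool.Agent.VM5

/-- one class of the ratio modulo `M`, differences at most `E` -/
theorem g2fiber (slp : SlpStmt) (D M E : ℕ) (S : Finset ℕ) (hM : 1 ≤ M) (hD : 10 < D)
    (hS : ∀ d ∈ S, D < d ∧ d ≤ 2 * D ∧ d.Prime) (ρ : ZMod M)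
    (P : Finset (ℕ × ℕ)) (hP : ∀ x ∈ P, x.1 ∈ S ∧ x.2 ∈ S ∧ x.1 ≠ x.2 ∧
      |(x.2 : ℝ) - (x.1 : ℝ)| ≤ (E : ℝ))
    (hρ : ∀ x ∈ P, (x.1 : ZMod M) = ρ * (x.2 : ZMod M)) :
    (P.card : ℝ) ≤ 1 + 8 * (E : ℝ) * (D : ℝ) / (M : ℝ) := by
  have hD0 : (0 : ℝ) < (D : ℝ) := by
    have : 0 < D := by omega
    exact_mod_cast this
  have hE0 : (0 : ℝ) ≤ (E : ℝ) := Nat.cast_nonneg _
  have h := slp P (2 * D) M (1 - (E : ℝ) / (D : ℝ)) (2 * (E : ℝ) / (D : ℝ)) hM (by positivity) ?_ ?_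
  · refine h.trans (le_of_eq ?_)
    push_cast
    field_simp
    ring
  · intro x hx
    obtain ⟨h1, h2, h3, h4⟩ := hP x hx
    obtain ⟨a1, a2, a3⟩ := hS _ h1
    obtain ⟨b1, b2, b3⟩ := hS _ h2
    have q2 : (0 : ℝ) < (x.2 : ℝ) := by
      have : 0 < x.2 := by omega
      exact_mod_cast this
    have r3 : (D : ℝ) ≤ (x.2 : ℝ) := by exact_mod_cast b1.le
    have h5 := abs_le.1 h4
    have h6 : (E : ℝ) ≤ (E : ℝ) / (D : ℝ) * (x.2 : ℝ) := by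
      rw [div_mul_eq_mul_div, le_div_iff₀ hD0]
      exact mul_le_mul_of_nonneg_left r3 hE0
    refine ⟨by omega, by omega, b2, (Nat.coprime_primes a3 b3).2 h3, ?_, ?_⟩
    · rw [le_div_iff₀ q2]
      have : (1 - (E : ℝ) / (D : ℝ)) * (x.2 : ℝ) = (x.2 : ℝ) - (E : ℝ) / (D : ℝ) * (x.2 : ℝ) := by
        ring
      rw [this]; linarith
    · rw [div_le_iff₀ q2]
      have : (1 - (E : ℝ) / (D : ℝ) + 2 * (E : ℝ) / (D : ℝ)) * (x.2 : ℝ) =
          (x.2 : ℝ) + (E : ℝ) / (D : ℝ) * (x.2 : ℝ) := by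
        ring
      rw [this]; linarith
  · intro x hx y hy
    have e1 := hρ x hx
    have e2 := hρ y hy
    rw [← ZMod.intCast_zmod_eq_zero_iff_dvd _ M]
    push_cast
    rw [e1, e2]
    ring

theorem g2count (slp : SlpStmt) (D M E : ℕ) (S : Finset ℕ) (hM : 1 ≤ M) (hD : 10 < D)
    (hS : ∀ d ∈ S, D < d ∧ d ≤ 2 * D ∧ d.Prime ∧ Nat.Coprime d M) (T : Finset (ℕ × ℕ))
    (mem : ∀ x ∈ T, x.1 ∈ S ∧ x.2 ∈ S ∧ x.1 ≠ x.2 ∧ |(x.2 : ℝ) - (x.1 : ℝ)| ≤ (E : ℝ) ∧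
      (M : ℤ) ∣ (x.2 : ℤ) ^ 10 - (x.1 : ℤ) ^ 10) :
    (T.card : ℝ) ≤
      (((Finset.range M).filter (fun x => Nat.Coprime x M ∧ x ^ 10 ≡ 1 [MOD M])).card : ℝ) *
        (1 + 8 * (E : ℝ) * (D : ℝ) / (M : ℝ)) := by
  classical
  have : NeZero M := ⟨by omega⟩
  set R := (Finset.range M).filter (fun x => Nat.Coprime x M ∧ x ^ 10 ≡ 1 [MOD M]) with hR
  set f : ℕ × ℕ → ℕ := fun x => ((x.1 : ZMod M) * (x.2 : ZMod M)⁻¹).val with hf
  have unit : ∀ d ∈ S, (d : ZMod M) * (d : ZMod M)⁻¹ = 1 := fun d hd =>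
    ZMod.coe_mul_inv_eq_one d (hS d hd).2.2.2
  have key : ∀ x ∈ T, (x.1 : ZMod M) = ((f x : ℕ) : ZMod M) * (x.2 : ZMod M) := by
    intro x hx
    obtain ⟨h1, h2, h3, _, h4⟩ := mem x hx
    simp only [hf]
    rw [ZMod.natCast_zmod_val, mul_assoc, mul_comm (x.2 : ZMod M)⁻¹, unit _ h2, mul_one]
  have maps : ∀ x ∈ T, f x ∈ R := by
    intro x hx
    obtain ⟨h1, h2, h3, _, h4⟩ := mem x hx
    have u1 := unit _ h1
    have u2 := unit _ h2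
    have e10 : (x.1 : ZMod M) ^ 10 = (x.2 : ZMod M) ^ 10 := by
      have := (ZMod.intCast_zmod_eq_zero_iff_dvd _ M).2 h4
      push_cast at this
      exact (sub_eq_zero.1 this).symm
    simp only [hR, Finset.mem_filter, Finset.mem_range]
    refine ⟨ZMod.val_lt _, ?_, ?_⟩
    · have hu : IsUnit ((f x : ℕ) : ZMod M) := by
        simp only [hf]
        rw [ZMod.natCast_zmod_val]
        exact IsUnit.of_mul_eq_one ((x.1 : ZMod M)⁻¹ * (x.2 : ZMod M)) (by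
          calc (x.1 : ZMod M) * (x.2 : ZMod M)⁻¹ * ((x.1 : ZMod M)⁻¹ * (x.2 : ZMod M))
              = ((x.1 : ZMod M) * (x.1 : ZMod M)⁻¹) * ((x.2 : ZMod M) * (x.2 : ZMod M)⁻¹) := by ring
            _ = 1 := by rw [u1, u2, mul_one])
      exact (ZMod.isUnit_iff_coprime _ _).1 hu
    · rw [← ZMod.natCast_eq_natCast_iff]
      push_cast
      simp only [hf]
      rw [ZMod.natCast_zmod_val, mul_pow, e10, ← mul_pow, u2, one_pow]
  have hcard : T.card = ∑ ρ ∈ R, (T.filter (fun x => f x = ρ)).card :=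
    Finset.card_eq_sum_card_fiberwise (fun x hx => maps x hx)
  rw [hcard]
  push_cast
  calc ∑ ρ ∈ R, ((T.filter (fun x => f x = ρ)).card : ℝ)
      ≤ ∑ ρ ∈ R, (1 + 8 * (E : ℝ) * (D : ℝ) / (M : ℝ)) := by
        apply Finset.sum_le_sum
        intro ρ _
        apply g2fiber slp D M E S hM hD
          (fun d hd => ⟨(hS d hd).1, (hS d hd).2.1, (hS d hd).2.2.1⟩) (ρ : ZMod M)
        · intro x hx
          have := mem x (Finset.mem_filter.1 hx).1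
          exact ⟨this.1, this.2.1, this.2.2.1, this.2.2.2.1⟩
        · intro x hx
          have h1 := key x (Finset.mem_filter.1 hx).1
          rw [(Finset.mem_filter.1 hx).2] at h1
          exact h1
    _ = _ := by rw [Finset.sum_const, nsmul_eq_mul]

theorem g2log (ε : ℝ) (hε : 0 < ε) (D : ℕ) (hD : 1 ≤ D) :
    ((Nat.log 2 D + 1 : ℕ) : ℝ) ≤ (2 / ε + 1) * (D : ℝ) ^ ε := by
  have hD1 : (1 : ℝ) ≤ (D : ℝ) := by exact_mod_cast hD
  have h1 : (2 : ℝ) ^ (Nat.log 2 D) ≤ (D : ℝ) := by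
    exact_mod_cast Nat.pow_log_le_self 2 (by omega)
  have h2 : (Nat.log 2 D : ℝ) * Real.log 2 ≤ Real.log (D : ℝ) := by
    rw [← Real.log_pow]
    exact Real.log_le_log (by positivity) h1
  have h3 : Real.log (D : ℝ) ≤ (D : ℝ) ^ ε / ε := Real.log_le_rpow_div (by linarith) hε
  have h4 : (1 : ℝ) / 2 ≤ Real.log 2 := by linarith [Real.log_two_gt_d9]
  have h5 : (Nat.log 2 D : ℝ) * (1 / 2) ≤ (Nat.log 2 D : ℝ) * Real.log 2 :=
    mul_le_mul_of_nonneg_left h4 (Nat.cast_nonneg _)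
  have h6 : (1 : ℝ) ≤ (D : ℝ) ^ ε := Real.one_le_rpow hD1 hε.le
  have h7 : (2 / ε + 1) * (D : ℝ) ^ ε = 2 * ((D : ℝ) ^ ε / ε) + (D : ℝ) ^ ε := by ring
  rw [h7]
  push_cast
  linarith

/-- GS2 -/
theorem gs2 (slp : SlpStmt) (rtu : VM.RtuStmt) : Gs2Stmt := by
  classical
  intro ε hε
  obtain ⟨C₁, hC₁, hr⟩ := rtu 10 (by norm_num) (ε / 2) (by linarith)
  obtain ⟨C₂, hC₂, hd⟩ := Helper69_Weyl.exists_card_divisors_le (ε / 2) (by linarith)
  refine ⟨160 * C₁ * C₂ * (2 / ε + 1), by positivity, ?_⟩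
  intro D u S hD hu hS
  have hu0 : (0 : ℝ) < u := by exact_mod_cast hu
  have hD0 : (0 : ℝ) < D := by
    have : 0 < D := by omega
    exact_mod_cast this
  set T := (S ×ˢ S).filter (fun x : ℕ × ℕ => x.1 ≠ x.2) with hT
  set g : ℕ × ℕ → ℕ := fun x => Int.gcd (10 * ((x.2 : ℤ) ^ 10 - (x.1 : ℤ) ^ 10)) (u : ℤ) with hg
  set dl : ℕ × ℕ → ℕ := fun x => ((x.2 : ℤ) - (x.1 : ℤ)).natAbs with hdl
  set w : ℕ × ℕ → ℕ × ℕ := fun x => (g x, Nat.log 2 (dl x)) with hw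
  have memT : ∀ x ∈ T, x.1 ∈ S ∧ x.2 ∈ S ∧ x.1 ≠ x.2 := by
    intro x hx
    simp only [hT, Finset.mem_filter, Finset.mem_product] at hx
    exact ⟨hx.1.1, hx.1.2, hx.2⟩
  have dlr : ∀ x : ℕ × ℕ, |(x.2 : ℝ) - (x.1 : ℝ)| = (dl x : ℝ) := by
    intro x
    simp only [hdl]
    rw [Nat.cast_natAbs]
    push_cast
    rfl
  have dlpos : ∀ x ∈ T, 1 ≤ dl x := by
    intro x hx
    have := (memT x hx).2.2
    simp only [hdl]
    omega
  have dlle : ∀ x ∈ T, dl x ≤ D := by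
    intro x hx
    obtain ⟨h1, h2, h3⟩ := memT x hx
    have a := hS _ h1
    have b := hS _ h2
    simp only [hdl]
    omega
  have maps : ∀ x ∈ T, w x ∈ u.divisors ×ˢ Finset.range (Nat.log 2 D + 1) := by
    intro x hx
    rw [Finset.mem_product, Nat.mem_divisors, Finset.mem_range]
    refine ⟨⟨?_, by omega⟩, ?_⟩
    · have : ((g x : ℕ) : ℤ) ∣ (u : ℤ) := Int.gcd_dvd_right _ _
      exact_mod_cast this
    · have h0 : Nat.log 2 (dl x) ≤ Nat.log 2 D := Nat.log_mono_right (dlle x hx)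
      exact Nat.lt_succ_of_le h0
  have h1 : ∑ x ∈ T, ((g x : ℕ) : ℝ) / |(x.2 : ℝ) - (x.1 : ℝ)| =
      ∑ z ∈ u.divisors ×ˢ Finset.range (Nat.log 2 D + 1),
        ∑ x ∈ T.filter (fun x => w x = z), ((g x : ℕ) : ℝ) / |(x.2 : ℝ) - (x.1 : ℝ)| :=
    (Finset.sum_fiberwise_of_maps_to maps _).symm
  have h2 : ∀ z ∈ u.divisors ×ˢ Finset.range (Nat.log 2 D + 1),
      ∑ x ∈ T.filter (fun x => w x = z), ((g x : ℕ) : ℝ) / |(x.2 : ℝ) - (x.1 : ℝ)| ≤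
      160 * C₁ * (u : ℝ) ^ (ε / 2) * ((u : ℝ) + (D : ℝ)) := by
    rintro ⟨e, i⟩ hz
    rw [Finset.mem_product] at hz
    have he := hz.1
    simp only at he
    have heu := (Nat.mem_divisors.1 he).1
    have he0 : 0 < e := Nat.pos_of_dvd_of_pos heu (by omega)
    set c := Nat.gcd e 10 with hc
    have hc0 : 0 < c := Nat.gcd_pos_of_pos_left _ he0
    obtain ⟨M, hM⟩ : c ∣ e := Nat.gcd_dvd_left _ _
    obtain ⟨f, hf⟩ : c ∣ 10 := Nat.gcd_dvd_right _ _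
    have hM0 : 0 < M := by
      rcases Nat.eq_zero_or_pos M with h | h
      · rw [h] at hM; omega
      · exact h
    have hcop : Nat.Coprime M f := by
      have h3 : Nat.gcd (c * M) (c * f) = c := by rw [← hM, ← hf, hc]
      rw [Nat.gcd_mul_left] at h3
      exact Nat.eq_of_mul_eq_mul_left hc0 (by rw [mul_one]; exact h3)
    have hMe : M ∣ e := ⟨c, by rw [hM, mul_comm]⟩
    have hMu : M ∣ u := hMe.trans heu
    have hc10 : c ≤ 10 := Nat.le_of_dvd (by norm_num) (Nat.gcd_dvd_right _ _)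
    have mem : ∀ x ∈ T.filter (fun x => w x = (e, i)), x.1 ∈ S ∧ x.2 ∈ S ∧ x.1 ≠ x.2 ∧
        |(x.2 : ℝ) - (x.1 : ℝ)| ≤ ((2 ^ (i + 1) : ℕ) : ℝ) ∧
        (M : ℤ) ∣ (x.2 : ℤ) ^ 10 - (x.1 : ℤ) ^ 10 := by
      intro x hx
      obtain ⟨hx1, hx2⟩ := Finset.mem_filter.1 hx
      have hge : g x = e := congrArg Prod.fst hx2
      have hle : Nat.log 2 (dl x) = i := congrArg Prod.snd hx2
      obtain ⟨m1, m2, m3⟩ := memT x hx1
      refine ⟨m1, m2, m3, ?_, ?_⟩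
      · rw [dlr x]
        have : dl x < 2 ^ (i + 1) := by
          rw [← hle]
          exact Nat.lt_pow_succ_log_self (by norm_num) _
        exact_mod_cast this.le
      have h4 : (e : ℤ) ∣ 10 * ((x.2 : ℤ) ^ 10 - (x.1 : ℤ) ^ 10) := by
        rw [← hge]; exact Int.gcd_dvd_left _ _
      have h5 : (c : ℤ) * (M : ℤ) ∣ (c : ℤ) * ((f : ℤ) * ((x.2 : ℤ) ^ 10 - (x.1 : ℤ) ^ 10)) := by
        have e1 : (e : ℤ) = (c : ℤ) * (M : ℤ) := by exact_mod_cast hM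
        have e2 : (10 : ℤ) = (c : ℤ) * (f : ℤ) := by exact_mod_cast hf
        rw [e1, e2, mul_assoc] at h4
        exact h4
      have h6 : (M : ℤ) ∣ (f : ℤ) * ((x.2 : ℤ) ^ 10 - (x.1 : ℤ) ^ 10) :=
        (mul_dvd_mul_iff_left (by exact_mod_cast hc0.ne')).1 h5
      exact (Int.isCoprime_iff_gcd_eq_one.2 (by simpa using hcop)).dvd_of_dvd_mul_left h6
    have hcnt := g2count slp D M (2 ^ (i + 1)) S hM0 hD
      (fun d hd' => ⟨(hS d hd').1, (hS d hd').2.1, (hS d hd').2.2.1, by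
        rw [Nat.Prime.coprime_iff_not_dvd (hS d hd').2.2.1]
        exact fun h => (hS d hd').2.2.2 (h.trans hMu)⟩) _ mem
    have hrt := hr M hM0
    have hMle : (M : ℝ) ≤ (u : ℝ) := by exact_mod_cast Nat.le_of_dvd (by omega) hMu
    have hM1 : (0 : ℝ) < (M : ℝ) := by exact_mod_cast hM0
    have hpow : (M : ℝ) ^ (ε / 2) ≤ (u : ℝ) ^ (ε / 2) :=
      Real.rpow_le_rpow hM1.le hMle (by linarith)
    have hel : (e : ℝ) ≤ 10 * (M : ℝ) := by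
      have : e ≤ 10 * M := by rw [hM]; exact Nat.mul_le_mul_right _ hc10
      exact_mod_cast this
    have hI : (0 : ℝ) < (2 : ℝ) ^ i := by positivity
    have hI1 : (1 : ℝ) ≤ (2 : ℝ) ^ i := one_le_pow₀ (by norm_num)
    have s1 : ∑ x ∈ T.filter (fun x => w x = (e, i)), ((g x : ℕ) : ℝ) / |(x.2 : ℝ) - (x.1 : ℝ)| ≤
        ((T.filter (fun x => w x = (e, i))).card : ℝ) * ((e : ℝ) / (2 : ℝ) ^ i) := by
      rw [← nsmul_eq_mul]
      apply Finset.sum_le_card_nsmul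
      intro x hx
      obtain ⟨hx1, hx2⟩ := Finset.mem_filter.1 hx
      have hge : g x = e := congrArg Prod.fst hx2
      have hle : Nat.log 2 (dl x) = i := congrArg Prod.snd hx2
      rw [hge, dlr x]
      have h8 : 2 ^ i ≤ dl x := by
        rw [← hle]
        exact Nat.pow_log_le_self 2 (by have := dlpos x hx1; omega)
      have h9 : (2 : ℝ) ^ i ≤ (dl x : ℝ) := by exact_mod_cast h8
      exact div_le_div_of_nonneg_left (Nat.cast_nonneg _) hI h9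
    have s2 : ((T.filter (fun x => w x = (e, i))).card : ℝ) ≤
        C₁ * (u : ℝ) ^ (ε / 2) * (1 + 8 * ((2 ^ (i + 1) : ℕ) : ℝ) * (D : ℝ) / (M : ℝ)) := by
      calc ((T.filter (fun x => w x = (e, i))).card : ℝ)
          ≤ _ := hcnt
        _ ≤ _ := by
          apply mul_le_mul_of_nonneg_right _ (by positivity)
          exact hrt.trans (mul_le_mul_of_nonneg_left hpow hC₁.le)
    have s3 : (1 + 8 * ((2 ^ (i + 1) : ℕ) : ℝ) * (D : ℝ) / (M : ℝ)) * ((e : ℝ) / (2 : ℝ) ^ i) ≤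
        160 * ((u : ℝ) + (D : ℝ)) := by
      have t1 : (1 + 8 * ((2 ^ (i + 1) : ℕ) : ℝ) * (D : ℝ) / (M : ℝ)) * ((e : ℝ) / (2 : ℝ) ^ i) ≤
          (1 + 8 * ((2 ^ (i + 1) : ℕ) : ℝ) * (D : ℝ) / (M : ℝ)) *
            (10 * (M : ℝ) / (2 : ℝ) ^ i) := by
        apply mul_le_mul_of_nonneg_left _ (by positivity)
        exact div_le_div_of_nonneg_right hel hI.le
      have t2 : (1 + 8 * ((2 ^ (i + 1) : ℕ) : ℝ) * (D : ℝ) / (M : ℝ)) *
            (10 * (M : ℝ) / (2 : ℝ) ^ i) =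
          10 * ((M : ℝ) / (2 : ℝ) ^ i) + 160 * (D : ℝ) := by
        push_cast
        rw [pow_succ]
        field_simp
        ring
      rw [t2] at t1
      have t3 : (M : ℝ) / (2 : ℝ) ^ i ≤ (M : ℝ) := div_le_self hM1.le hI1
      linarith
    calc _ ≤ ((T.filter (fun x => w x = (e, i))).card : ℝ) * ((e : ℝ) / (2 : ℝ) ^ i) := s1
      _ ≤ C₁ * (u : ℝ) ^ (ε / 2) * (1 + 8 * ((2 ^ (i + 1) : ℕ) : ℝ) * (D : ℝ) / (M : ℝ)) *
          ((e : ℝ) / (2 : ℝ) ^ i) :=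
          mul_le_mul_of_nonneg_right s2 (by positivity)
      _ = C₁ * (u : ℝ) ^ (ε / 2) * ((1 + 8 * ((2 ^ (i + 1) : ℕ) : ℝ) * (D : ℝ) / (M : ℝ)) *
          ((e : ℝ) / (2 : ℝ) ^ i)) := by ring
      _ ≤ C₁ * (u : ℝ) ^ (ε / 2) * (160 * ((u : ℝ) + (D : ℝ))) :=
          mul_le_mul_of_nonneg_left s3 (by positivity)
      _ = _ := by ring
  have h3 : ((u.divisors.card : ℕ) : ℝ) ≤ C₂ * (u : ℝ) ^ (ε / 2) := hd u (by omega)
  have h4 := g2log ε hε D (by omega)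
  have hB0 : 0 ≤ 160 * C₁ * (u : ℝ) ^ (ε / 2) * ((u : ℝ) + (D : ℝ)) := by positivity
  calc ∑ x ∈ T, ((g x : ℕ) : ℝ) / |(x.2 : ℝ) - (x.1 : ℝ)|
      = ∑ z ∈ u.divisors ×ˢ Finset.range (Nat.log 2 D + 1),
        ∑ x ∈ T.filter (fun x => w x = z), ((g x : ℕ) : ℝ) / |(x.2 : ℝ) - (x.1 : ℝ)| := h1
    _ ≤ ∑ z ∈ u.divisors ×ˢ Finset.range (Nat.log 2 D + 1),
          160 * C₁ * (u : ℝ) ^ (ε / 2) * ((u : ℝ) + (D : ℝ)) :=
        Finset.sum_le_sum h2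
    _ = ((u.divisors.card : ℝ) * ((Nat.log 2 D + 1 : ℕ) : ℝ)) *
          (160 * C₁ * (u : ℝ) ^ (ε / 2) * ((u : ℝ) + (D : ℝ))) := by
        rw [Finset.sum_const, nsmul_eq_mul, Finset.card_product, Finset.card_range, Nat.cast_mul]
    _ ≤ ((C₂ * (u : ℝ) ^ (ε / 2)) * ((2 / ε + 1) * (D : ℝ) ^ ε)) *
          (160 * C₁ * (u : ℝ) ^ (ε / 2) * ((u : ℝ) + (D : ℝ))) := by
        apply mul_le_mul_of_nonneg_right _ hB0
        exact mul_le_mul h3 h4 (Nat.cast_nonneg _) (by positivity)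
    _ = 160 * C₁ * C₂ * (2 / ε + 1) * ((u : ℝ) * (D : ℝ)) ^ ε * ((u : ℝ) + (D : ℝ)) := by
        have h8 : (u : ℝ) ^ ε = (u : ℝ) ^ (ε / 2) * (u : ℝ) ^ (ε / 2) := by
          rw [← Real.rpow_add hu0]; congr 1; ring
        rw [Real.mul_rpow hu0.le hD0.le, h8]; ring

end Pool.Agent.VM5.H76
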